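import Pool.Agent.Helper36.CV.StmtsE

/-!
# The families of large couplings
-/

set_option autoImplicit false

namespace Pool.Agent.Helper36.CV

open Complex Filter Topology MeasureTheory Set Pointwise

noncomputable section

lemma e12_iter (i : Fin 3) (m : ℕ) (w : Wd) : (ch i)^[m] w = cr i m w := by
  induction m with
  | zero => rfl
  | succ m ih =>
    rw [Function.iterate_succ_apply', ih]
    rfl

lemma e12_kd {ε c : ℝ} {K : Set ℝ} {ι : Type} {lo hi t : ι → ℝ} {g : Fin 3 → ι → ι}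
    (h : IsKD ε c K lo hi t g) :
    IsKD ε c (-K) (fun j => -hi j) (fun j => -lo j) (fun j => -t j) (fun i => g (Fin.rev i)) := by
  have r0 : Fin.rev (0 : Fin 3) = 2 := rfl
  have r1 : Fin.rev (1 : Fin 3) = 1 := rfl
  have r2 : Fin.rev (2 : Fin 3) = 0 := rfl
  constructor
  · intro j
    exact neg_lt_neg (h.lt j)
  · intro j
    rcases h.tv j with h1 | h1 | h1
    · right; right; rw [h1]; norm_num
    · right; left; rw [h1]; norm_num
    · left; rw [h1]
  · intro i j
    show -t (g (Fin.rev i) j) = _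
    rw [h.tc]
    fin_cases i
    · simp [Fin.rev]; norm_num
    · simp [Fin.rev]
    · simp [Fin.rev]; norm_num
  · intro j
    rw [Set.mem_neg, neg_neg]
    exact h.hm j
  · intro j
    rw [Set.mem_neg, neg_neg]
    exact h.lm j
  · intro j
    show -hi (g (Fin.rev 0) j) = -hi j
    rw [r0, h.hR]
  · intro j
    show -lo (g (Fin.rev 2) j) = -lo j
    rw [r2, h.lL]
  · intro j
    show |(-lo (g (Fin.rev 0) j) - -hi (g (Fin.rev 0) j)) - ε * (1 + 2 * ε * -t j) *
      (-lo j - -hi j)| ≤ c * ε ^ 3 * (-lo j - -hi j)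
    rw [r0]
    have h1 := h.nR j
    have e1 : (-lo (g 2 j) - -hi (g 2 j)) - ε * (1 + 2 * ε * -t j) * (-lo j - -hi j) =
      (hi (g 2 j) - lo (g 2 j)) - ε * (1 - 2 * ε * t j) * (hi j - lo j) := by ring
    have e2 : -lo j - -hi j = hi j - lo j := by ring
    rw [e1, e2]
    exact h1
  · intro j
    show |(-lo (g (Fin.rev 2) j) - -hi (g (Fin.rev 2) j)) - ε * (1 - 2 * ε * -t j) *
      (-lo j - -hi j)| ≤ c * ε ^ 3 * (-lo j - -hi j)
    rw [r2]
    have h1 := h.nL j
    have e1 : (-lo (g 0 j) - -hi (g 0 j)) - ε * (1 - 2 * ε * -t j) * (-lo j - -hi j) =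
      (hi (g 0 j) - lo (g 0 j)) - ε * (1 + 2 * ε * t j) * (hi j - lo j) := by ring
    have e2 : -lo j - -hi j = hi j - lo j := by ring
    rw [e1, e2]
    exact h1
  · intro j
    show |(-lo (g (Fin.rev 1) j) - -hi (g (Fin.rev 1) j)) - 4 * ε ^ 2 *
      (-lo j - -hi j)| ≤ c * ε ^ 3 * (-lo j - -hi j)
    rw [r1]
    have h1 := h.nA j
    have e1 : (-lo (g 1 j) - -hi (g 1 j)) - 4 * ε ^ 2 * (-lo j - -hi j) =
      (hi (g 1 j) - lo (g 1 j)) - 4 * ε ^ 2 * (hi j - lo j) := by ring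
    have e2 : -lo j - -hi j = hi j - lo j := by ring
    rw [e1, e2]
    exact h1
  · intro j
    show |(-lo (g (Fin.rev 1) j) + -hi (g (Fin.rev 1) j)) / 2 - (-lo j + -hi j) / 2 -
      3 / 4 * -t j * ε * (-lo j - -hi j)| ≤ c * ε ^ 2 * (-lo j - -hi j)
    rw [r1]
    have h1 := h.cA j
    have e1 : (-lo (g 1 j) + -hi (g 1 j)) / 2 - (-lo j + -hi j) / 2 -
        3 / 4 * -t j * ε * (-lo j - -hi j) =
      -((hi (g 1 j) + lo (g 1 j)) / 2 - (hi j + lo j) / 2 - 3 / 4 * t j * ε * (hi j - lo j)) := by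
      ring
    have e2 : -lo j - -hi j = hi j - lo j := by ring
    rw [e1, e2, abs_neg]
    exact h1
  · intro x hx j h1 h2
    rw [Set.mem_neg] at hx
    have h1' : -hi j ≤ x := h1
    have h2' : x ≤ -lo j := h2
    obtain ⟨i, h3, h4⟩ := h.cv (-x) hx j (by linarith) (by linarith)
    refine ⟨Fin.rev i, ?_⟩
    show -hi (g (Fin.rev (Fin.rev i)) j) ≤ x ∧ x ≤ -lo (g (Fin.rev (Fin.rev i)) j)
    rw [Fin.rev_rev]
    constructor <;> linarith
  · intro x hx δ hδ
    rw [Set.mem_neg] at hx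
    obtain ⟨j, h1, h2, h3⟩ := h.fn (-x) hx δ hδ
    refine ⟨j, ?_, ?_, ?_⟩
    · show -hi j ≤ x
      linarith
    · show x ≤ -lo j
      linarith
    · show -lo j - -hi j < δ
      linarith

theorem st_E12 (hK9 : ST_K9) (hG1 : ST_G1) (hG2 : ST_G2) (hG3 : ST_G3) (hO11 : ST_O11) :
    ST_E12 := by
  obtain ⟨c, L0, hc, hL0, ⟨U⟩⟩ := hK9
  obtain ⟨L1, hL1, g1⟩ := hG1 c hc
  have g2 := hG2 c L0 hc hL0 U
  obtain ⟨L3, g3⟩ := hG3 c L0 hc
  refine ⟨c, max L1 (max (2 * L0) L3), hc, le_max_of_le_left hL1, ?_⟩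
  intro A0 B0 hA hAB
  have a1 : L1 ≤ A0 := (le_max_left _ _).trans hA
  have a2 : 2 * L0 ≤ A0 := ((le_max_left _ _).trans (le_max_right _ _)).trans hA
  have a3 : L3 ≤ A0 := ((le_max_right _ _).trans (le_max_right _ _)).trans hA
  have hom : ∀ l ∈ Ioo A0 B0, ((l : ℝ) : ℂ) ∈ Om2 L0 := by
    intro l hl
    have h1 : 0 < l := by linarith [hl.1]
    have h2 : ‖((l : ℝ) : ℂ)‖ = l := by
      rw [Complex.norm_real, Real.norm_eq_abs, abs_of_pos h1]
    refine ⟨?_, ?_⟩
    · rw [h2]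
      linarith [hl.1]
    · rw [h2, Complex.ofReal_re]
      linarith
  have hcl : ∀ w, ContinuousOn (fun l : ℝ => (U.lo w (l : ℂ)).re) (Ioo A0 B0) := by
    intro w
    refine Complex.continuous_re.comp_continuousOn ?_
    exact (U.an_l w).continuousOn.comp Complex.continuous_ofReal.continuousOn hom
  have hch : ∀ w, ContinuousOn (fun l : ℝ => (U.hi w (l : ℂ)).re) (Ioo A0 B0) := by
    intro w
    refine Complex.continuous_re.comp_continuousOn ?_
    exact (U.an_h w).continuousOn.comp Complex.continuous_ofReal.continuousOn hom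
  constructor
  · refine ⟨LF.mk Wd inferInstance (fun w l => (U.lo w (l : ℂ)).re)
      (fun w l => (U.hi w (l : ℂ)).re) ty ch (by linarith)
      (fun l hl => U.kd l (by linarith [hl.1])) hcl hch ?_ ?_ ?_ (fun l _ => (hO11 l).2)⟩
    · intro w a b ha hab hb R
      obtain ⟨m0, hm0⟩ := g1 L0 U w 0 (by decide) a b (by linarith) (by linarith) hab R
      refine ⟨m0, fun m hm => ?_⟩
      rw [e12_iter]
      exact hm0 m hm
    · intro w w'
      rcases (g2 w w').1 with h | h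
      · exact Or.inl fun l hl => h l (by linarith [hl.1])
      · exact Or.inr fun c0 a b ha hab _ => h c0 a b (by linarith) hab
    · intro l hl k hk hδ
      obtain ⟨w, hw⟩ := (g3 U l (by linarith [hl.1]) (by linarith [hl.1]) k hk).1 hδ
      exact ⟨cr 0 0 w, (hw 0).1⟩
  · refine ⟨LF.mk Wd inferInstance (fun w l => -(U.hi w (l : ℂ)).re)
      (fun w l => -(U.lo w (l : ℂ)).re) (fun w => -ty w) (fun i => ch (Fin.rev i))
      (by linarith) (fun l hl => e12_kd (U.kd l (by linarith [hl.1]))) (fun w => (hch w).neg)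
      (fun w => (hcl w).neg) ?_ ?_ ?_ (fun l _ => (hO11 l).2.neg)⟩
    · intro w a b ha hab hb R
      obtain ⟨m0, hm0⟩ := g1 L0 U w 2 (by decide) a b (by linarith) (by linarith) hab R
      refine ⟨m0, fun m hm => ?_⟩
      have r0 : ch (Fin.rev (0 : Fin 3)) = ch 2 := rfl
      rw [r0, e12_iter]
      have h1 := hm0 m hm
      unfold len at h1
      have e1 : ∀ l : ℝ, -(U.lo (cr 2 m w) (l : ℂ)).re - -(U.hi (cr 2 m w) (l : ℂ)).re =
        (U.hi (cr 2 m w) (l : ℂ)).re - (U.lo (cr 2 m w) (l : ℂ)).re := fun l => by ring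
      rw [e1, e1]
      exact h1
    · intro w w'
      rcases (g2 w w').2 with h | h
      · left
        intro l hl
        rw [h l (by linarith [hl.1])]
      · right
        intro c0 a b ha hab _
        obtain ⟨l, hl, hne⟩ := h (-c0) a b (by linarith) hab
        refine ⟨l, hl, fun hcon => hne ?_⟩
        linarith
    · intro l hl k hk hδ
      rw [Set.mem_neg] at hk
      obtain ⟨w, hw⟩ := (g3 U l (by linarith [hl.1]) (by linarith [hl.1]) (-k) hk).2 (by
        obtain ⟨δ, hδ0, hδ1⟩ := hδ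
        refine ⟨δ, hδ0, fun y hy hyC => ?_⟩
        refine hδ1 (-y) ⟨by linarith [hy.2], by linarith [hy.1]⟩ ?_
        rw [Set.mem_neg, neg_neg]
        exact hyC)
      refine ⟨cr 2 0 w, ?_⟩
      show -(U.hi (cr 2 0 w) (l : ℂ)).re = k
      rw [(hw 0).1, neg_neg]

end

end Pool.Agent.Helper36.CV
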